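import Pool.Agent.H50R2.Commuting

set_option autoImplicit false

/-!
# MP_429423_al : solvable subgroups of groups with an indexed word problem

If the word problem of a group with respect to a finite family of elements is an indexed language,
then solvable subgroups of derived length `d` contain at most `2 ^ (K * (log n) ^ d)` elements of
length at most `n`.  In particular abelian subgroups have (uniformly) polynomial relative growth, and
a finitely generated solvable group with an indexed word problem has subexponential growth.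
-/

namespace Pool.Agent.Results.MP_429423_al.SolvableSubgroups

open Pool.Agent.H50R2 Finset

variable {G : Type} [Group G] {ι : Type}

/-- The letter `(i, true)` stands for the element `x i` and `(i, false)` for its inverse. -/
def letter (x : ι → G) (p : ι × Bool) : G := if p.2 then x p.1 else (x p.1)⁻¹

/-- The element represented by a word. -/
def value (x : ι → G) (w : List (ι × Bool)) : G := (w.map (letter x)).prod

/-- The word problem: the words over the letters and their inverses which represent `1`. -/
def wordProblem (x : ι → G) : Language (ι × Bool) := {w : List (ι × Bool) | value x w = 1}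

/-- The elements represented by words of length at most `n`. -/
def ball (x : ι → G) (n : ℕ) : Set G := {g | ∃ w : List (ι × Bool), w.length ≤ n ∧ value x w = g}

lemma value_append (x : ι → G) (u v : List (ι × Bool)) :
    value x (u ++ v) = value x u * value x v := by simp [value]

/-- The formal inverse of a word. -/
def winv (w : List (ι × Bool)) : List (ι × Bool) := (w.map (fun p => (p.1, !p.2))).reverse

lemma length_winv (w : List (ι × Bool)) : (winv w).length = w.length := by simp [winv]

lemma value_winv (x : ι → G) (w : List (ι × Bool)) : value x (winv w) = (value x w)⁻¹ := by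
  induction w with
  | nil => simp [winv, value]
  | cons p w ih =>
    have h1 : winv (p :: w) = winv w ++ [(p.1, !p.2)] := by simp [winv]
    rw [h1, value_append, ih]
    simp only [value, List.map_cons, List.map_nil, List.prod_cons, List.prod_nil, mul_inv_rev,
      mul_one]
    congr 1
    cases p with
    | mk i y => cases y <;> simp [letter]

/-- The trivial word of length `2 k`. -/
def pad (i : ι) : ℕ → List (ι × Bool)
  | 0 => []
  | k + 1 => (i, true) :: (i, false) :: pad i k

lemma length_pad (i : ι) (k : ℕ) : (pad i k).length = 2 * k := by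
  induction k with
  | zero => rfl
  | succ k ih => simp only [pad, List.length_cons, ih]; omega

lemma value_pad (x : ι → G) (i : ι) (k : ℕ) : value x (pad i k) = 1 := by
  induction k with
  | zero => rfl
  | succ k ih =>
    have h1 : value x (pad i (k + 1)) = x i * ((x i)⁻¹ * value x (pad i k)) := rfl
    rw [h1, ih]
    simp

/-- The ordered product of the powers `g b ^ d b`, `b < m`. -/
def dprod (g : ℕ → G) (d : ℕ → ℤ) : ℕ → G
  | 0 => 1
  | m + 1 => dprod g d m * g m ^ d m

/-- The products of the elements `g b`, `b < m`, over subsets of `{0, …, m - 1}` are distinct. -/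
def Diss (g : ℕ → G) (m : ℕ) : Prop :=
  ∀ d : ℕ → ℤ, (∀ b, |d b| ≤ 1) → dprod g d m = 1 → ∀ b, b < m → d b = 0

lemma phi_zsmul {T K : Type} [AddCommGroup K] {h : T → G} (F : Fam h K) (n : ℤ)
    (x : K) : F.φ (n • x) = F.φ x ^ n := by
  let f : K →+ Additive G :=
    { toFun := fun x => Additive.ofMul (F.φ x)
      map_zero' := by rw [F.φ_zero]; rfl
      map_add' := fun x y => by rw [F.φ_add]; rfl }
  exact map_zsmul f n x

/-- Commuting families of elements given by words of even length grow at most polynomially. -/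
lemma bounded_families {x : ι → G} (hI : IsIndexed (wordProblem x)) : ∃ C : ℕ, ∀ (n m : ℕ)
    (g : ℕ → G), (∀ i j, Commute (g i) (g j)) →
    (∀ b, ∃ w : List (ι × Bool), w.length ≤ 2 * n ∧ Even w.length ∧ value x w = g b) →
    Diss g m → 2 ^ m ≤ (n + 2) ^ C := by
  by_contra hcon
  push Not at hcon
  refine not_isIndexed_of_families (h := letter x) ?_ hI
  intro C
  obtain ⟨n, m, g, hg, hw, hdiss, hbig⟩ := hcon (2 * C)
  choose w hw1 hw2 hw3 using hw
  -- there is a letter
  have hm : m ≠ 0 := by
    rintro rfl
    have : 1 ≤ (n + 2) ^ (2 * C) := Nat.one_le_pow _ _ (by omega)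
    rw [pow_zero] at hbig
    omega
  obtain ⟨i₀⟩ : Nonempty ι := by
    by_contra hne
    have hnil : w 0 = [] := by
      cases hw0 : w 0 with
      | nil => rfl
      | cons p _ => exact absurd ⟨p.1⟩ hne
    have hg0 : g 0 = 1 := by
      rw [← hw3 0, hnil]; rfl
    have h1 := hdiss (fun b => if b = 0 then 1 else 0) (by
      intro b
      split_ifs <;> simp) (by
        have : ∀ k, dprod g (fun b => if b = 0 then 1 else 0) k = 1 := by
          intro k
          induction k with
          | zero => rfl
          | succ k ih =>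
            rw [dprod, ih, one_mul]
            rcases Nat.eq_zero_or_pos k with h | h
            · subst h; simp [hg0]
            · rw [if_neg (by omega), zpow_zero]
        exact this m) 0 (by omega)
    simp at h1
  have hpad : ∀ b, (pad i₀ ((2 * n + 2 - (w b).length) / 2)).length = 2 * n + 2 - (w b).length := by
    intro b
    rw [length_pad]
    have := hw1 b
    obtain ⟨k, hk⟩ := hw2 b
    omega
  let F := famOf (letter x) g hg (2 * n + 2) (by omega)
    (fun b => w b ++ pad i₀ ((2 * n + 2 - (w b).length) / 2))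
    (fun b => winv (w b) ++ pad i₀ ((2 * n + 2 - (w b).length) / 2)) (pad i₀ (n + 1))
    (fun b => by
      rw [List.length_append, hpad]
      have := hw1 b
      omega)
    (fun b => by
      rw [List.length_append, hpad, length_winv]
      have := hw1 b
      omega)
    (by rw [length_pad]; ring)
    (fun b => by
      change value x _ = _
      rw [value_append, value_pad, mul_one, hw3])
    (fun b => by
      change value x _ = _
      rw [value_append, value_pad, mul_one, value_winv, hw3])
    (value_pad x i₀ (n + 1))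
  refine ⟨CK g, instCK g hg, F, m, ?_, ?_⟩
  · change (2 * n + 2 + 1) ^ C ≤ 2 ^ m
    calc (2 * n + 2 + 1) ^ C ≤ ((n + 2) ^ 2) ^ C := Nat.pow_le_pow_left (by nlinarith) C
      _ = (n + 2) ^ (2 * C) := by rw [← pow_mul]
      _ ≤ 2 ^ m := hbig.le
  · intro d hd hsum
    let _ := instCK g hg
    apply hdiss d hd
    have key : ∀ k, F.φ (∑ b ∈ Finset.range k, d b • F.κ b) = dprod g d k := by
      intro k
      induction k with
      | zero => rw [Finset.sum_range_zero, F.φ_zero]; rfl
      | succ k ih =>
        rw [Finset.sum_range_succ, F.φ_add, ih, phi_zsmul]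
        rfl
    rw [← key m, hsum, F.φ_zero]

open Classical in
/-- The products of the elements `g b` and their inverses. -/
noncomputable def span (g : ℕ → G) : ℕ → Finset G
  | 0 => {1}
  | m + 1 => (span g m ×ˢ ({1, g m, (g m)⁻¹} : Finset G)).image (fun y => y.1 * y.2)

lemma card_span (g : ℕ → G) (m : ℕ) : #(span g m) ≤ 3 ^ m := by
  classical
  induction m with
  | zero => simp [span]
  | succ m ih =>
    rw [span, pow_succ]
    refine Finset.card_image_le.trans ?_
    rw [Finset.card_product]
    exact Nat.mul_le_mul ih Finset.card_le_three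

lemma dprod_mem_span (g : ℕ → G) (d : ℕ → ℤ) (hd : ∀ b, |d b| ≤ 1) (m : ℕ) :
    dprod g d m ∈ span g m := by
  classical
  induction m with
  | zero => simp [dprod, span]
  | succ m ih =>
    rw [span, Finset.mem_image]
    refine ⟨(dprod g d m, g m ^ d m), ?_, rfl⟩
    rw [Finset.mem_product]
    refine ⟨ih, ?_⟩
    have h3 := abs_le.1 (hd m)
    have h4 : d m = -1 ∨ d m = 0 ∨ d m = 1 := by omega
    rcases h4 with h4 | h4 | h4 <;> rw [h4] <;> simp

lemma dprod_congr {g g' : ℕ → G} (d : ℕ → ℤ) (m : ℕ) (h : ∀ b, b < m → g b = g' b) :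
    dprod g d m = dprod g' d m := by
  induction m with
  | zero => rfl
  | succ m ih => rw [dprod, dprod, ih (fun b hb => h b (by omega)), h m (by omega)]

lemma dprod_comm {g : ℕ → G} (hg : ∀ i j, Commute (g i) (g j)) (d : ℕ → ℤ) (m j : ℕ) (k : ℤ) :
    Commute (dprod g d m) (g j ^ k) := by
  induction m with
  | zero => exact Commute.one_left _
  | succ m ih => exact ih.mul_left (((hg m j).zpow_left _).zpow_right _)

lemma dprod_neg {g : ℕ → G} (hg : ∀ i j, Commute (g i) (g j)) (d : ℕ → ℤ) (m : ℕ) :
    dprod g (fun b => - d b) m = (dprod g d m)⁻¹ := by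
  induction m with
  | zero => simp [dprod]
  | succ m ih =>
    rw [dprod, dprod, ih, zpow_neg, ← mul_inv_rev, (dprod_comm hg d m m (d m)).eq]

/-- Extend a family with distinct subproducts. -/
lemma diss_succ {g : ℕ → G} {m : ℕ} (hg : ∀ i j, Commute (g i) (g j)) (h : Diss g m)
    (hx : g m ∉ span g m) : Diss g (m + 1) := by
  intro d hd hprod b hb
  rw [dprod] at hprod
  have h3 := abs_le.1 (hd m)
  have h4 : d m = -1 ∨ d m = 0 ∨ d m = 1 := by omega
  rcases h4 with h4 | h4 | h4
  · exfalso
    rw [h4, zpow_neg_one, mul_inv_eq_one] at hprod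
    exact hx (hprod ▸ dprod_mem_span g d hd m)
  · rcases Nat.lt_or_ge b m with hbm | hbm
    · rw [h4, zpow_zero, mul_one] at hprod
      exact h d hd hprod b hbm
    · rw [show b = m by omega, h4]
  · exfalso
    rw [h4, zpow_one] at hprod
    have h5 := eq_inv_of_mul_eq_one_right hprod
    rw [← dprod_neg hg] at h5
    exact hx (h5 ▸ dprod_mem_span g _ (fun b => by rw [abs_neg]; exact hd b) m)

/-- An element represented by a word of even length at most `2 n`. -/
def EvenBall (x : ι → G) (n : ℕ) (g : G) : Prop :=
  ∃ w : List (ι × Bool), w.length ≤ 2 * n ∧ Even w.length ∧ value x w = g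

lemma evenBall_one (x : ι → G) (n : ℕ) : EvenBall x n 1 := ⟨[], by simp, by simp, rfl⟩

/-- The selection process. -/
lemma select (x : ι → G) (S : Subgroup G) (n f : ℕ) (F₀ : Finset G)
    (hF₀ : ∀ y ∈ F₀, y ∈ S ∧ ∃ w : List (ι × Bool), w.length ≤ n ∧ value x w = y)
    (hpar : ∀ y ∈ F₀, ∀ y' ∈ F₀, EvenBall x n (y⁻¹ * y'))
    (D : Finset G) (hD : #D ≤ f) (hDS : ∀ g, g ∈ ⁅S, S⁆ → g ∈ ball x (6 * n) → g ∈ D)
    (M : ℕ) (hM : (3 * f) ^ M < #F₀) :
    ∀ j, j ≤ M + 1 → ∃ (g : ℕ → G) (F : Finset G), (∀ i i', Commute (g i) (g i')) ∧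
      (∀ b, EvenBall x n (g b)) ∧ Diss g j ∧ (∀ b, j ≤ b → g b = 1) ∧ F ⊆ F₀ ∧
      (∀ y ∈ F, ∀ y' ∈ F, ∀ b, Commute (y⁻¹ * y') (g b)) ∧ #F₀ ≤ #F * f ^ j := by
  classical
  intro j
  induction j with
  | zero =>
    intro _
    refine ⟨fun _ => 1, F₀, fun _ _ => Commute.refl _, fun _ => evenBall_one x n, ?_,
      fun _ _ => rfl, Finset.Subset.refl _, fun _ _ _ _ _ => Commute.one_right _, by simp⟩
    intro d _ _ b hb
    omega
  | succ j ih =>
    intro hj
    obtain ⟨g, F, hg, hev, hdiss, hone, hsub, hcomm, hcard⟩ := ih (by omega)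
    -- `F` is large
    have hf : 1 ≤ f := by
      by_contra hf0
      have hf0' : f = 0 := by omega
      have : #D = 0 := by omega
      rw [Finset.card_eq_zero] at this
      have h1 := hDS 1 (Subgroup.one_mem _) ⟨[], by simp, rfl⟩
      rw [this] at h1
      simp at h1
    have hlarge : 3 ^ j < #F := by
      by_contra hcon
      have h1 : #F₀ ≤ 3 ^ j * f ^ j := hcard.trans (Nat.mul_le_mul_right _ (by omega))
      have h2 : 3 ^ j * f ^ j ≤ (3 * f) ^ M := by
        rw [← mul_pow]
        exact Nat.pow_le_pow_right (by omega) (by omega)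
      omega
    have hFne : F.Nonempty := by
      rw [← Finset.card_pos]
      have : 0 < 3 ^ j := by positivity
      omega
    obtain ⟨y₀, hy₀⟩ := hFne
    -- choose the new element
    obtain ⟨y₁, hy₁, hy₁'⟩ : ∃ y ∈ F, y₀⁻¹ * y ∉ span g j := by
      by_contra hcon
      push Not at hcon
      have h1 : #(F.image (fun y => y₀⁻¹ * y)) ≤ #(span g j) := by
        apply Finset.card_le_card
        intro z hz
        rw [Finset.mem_image] at hz
        obtain ⟨y, hy, rfl⟩ := hz
        exact hcon y hy
      rw [Finset.card_image_of_injective _ (mul_right_injective y₀⁻¹)] at h1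
      have := card_span g j
      omega
    set z := y₀⁻¹ * y₁ with hz
    have hzev : EvenBall x n z := hpar _ (hsub hy₀) _ (hsub hy₁)
    have hzS : z ∈ S := S.mul_mem (S.inv_mem (hF₀ _ (hsub hy₀)).1) (hF₀ _ (hsub hy₁)).1
    have hzg : ∀ b, Commute z (g b) := hcomm y₀ hy₀ y₁ hy₁
    -- the commutators with the new element
    have hmap : ∀ y ∈ F, z * y * z⁻¹ * y⁻¹ ∈ D := by
      intro y hy
      obtain ⟨hyS, w, hw1, hw2⟩ := hF₀ _ (hsub hy)
      obtain ⟨v, hv1, _, hv2⟩ := hzev
      apply hDS
      · exact Subgroup.commutator_mem_commutator hzS hyS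
      · refine ⟨v ++ w ++ winv v ++ winv w, ?_, ?_⟩
        · simp only [List.length_append, length_winv]
          omega
        · simp only [value_append, value_winv, hv2, hw2]
    obtain ⟨c, hc⟩ : ∃ c, #F ≤ #(F.filter (fun y => z * y * z⁻¹ * y⁻¹ = c)) * f := by
      by_contra hcon
      push Not at hcon
      have h1 := Finset.card_eq_sum_card_fiberwise (f := fun y => z * y * z⁻¹ * y⁻¹) (s := F)
        (t := D) (fun y hy => hmap y hy)
      have hDne : D.Nonempty := ⟨_, hmap y₀ hy₀⟩
      have h2 : #F * f < #F * f := by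
        calc #F * f = (∑ b ∈ D, #{y ∈ F | z * y * z⁻¹ * y⁻¹ = b}) * f := by rw [← h1]
          _ = ∑ b ∈ D, #{y ∈ F | z * y * z⁻¹ * y⁻¹ = b} * f := Finset.sum_mul _ _ _
          _ < ∑ _b ∈ D, #F := Finset.sum_lt_sum_of_nonempty hDne (fun b _ => hcon b)
          _ = #D * #F := by rw [Finset.sum_const, smul_eq_mul]
          _ ≤ f * #F := Nat.mul_le_mul_right _ hD
          _ = #F * f := Nat.mul_comm _ _
      exact lt_irrefl _ h2
    refine ⟨Function.update g j z, F.filter (fun y => z * y * z⁻¹ * y⁻¹ = c), ?_, ?_, ?_, ?_, ?_,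
      ?_, ?_⟩
    · intro i i'
      by_cases hi : i = j <;> by_cases hi' : i' = j
      · subst hi; subst hi'; exact Commute.refl _
      · subst hi; rw [Function.update_self, Function.update_of_ne hi']; exact hzg _
      · subst hi'; rw [Function.update_self, Function.update_of_ne hi]; exact (hzg _).symm
      · rw [Function.update_of_ne hi, Function.update_of_ne hi']; exact hg _ _
    · intro b
      by_cases hb : b = j
      · subst hb; rw [Function.update_self]; exact hzev
      · rw [Function.update_of_ne hb]; exact hev b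
    · have hspan : span (Function.update g j z) j = span g j := by
        have : ∀ k, k ≤ j → span (Function.update g j z) k = span g k := by
          intro k
          induction k with
          | zero => intro _; rfl
          | succ k ihk =>
            intro hk
            rw [span, span, ihk (by omega), Function.update_of_ne (by omega)]
        exact this j le_rfl
      apply diss_succ
      · intro i i'
        by_cases hi : i = j <;> by_cases hi' : i' = j
        · subst hi; subst hi'; exact Commute.refl _
        · subst hi; rw [Function.update_self, Function.update_of_ne hi']; exact hzg _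
        · subst hi'; rw [Function.update_self, Function.update_of_ne hi]; exact (hzg _).symm
        · rw [Function.update_of_ne hi, Function.update_of_ne hi']; exact hg _ _
      · intro d hd hprod
        apply hdiss d hd
        rw [← hprod]
        exact dprod_congr d j (fun b hb => (Function.update_of_ne (by omega) _ _).symm)
      · rw [hspan, Function.update_self]; exact hy₁'
    · intro b hb
      rw [Function.update_of_ne (by omega)]
      exact hone b (by omega)
    · exact (Finset.filter_subset _ _).trans hsub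
    · intro y hy y' hy' b
      rw [Finset.mem_filter] at hy hy'
      by_cases hb : b = j
      · subst hb
        rw [Function.update_self]
        have h1 : z * y * z⁻¹ * y⁻¹ = z * y' * z⁻¹ * y'⁻¹ := hy.2.trans hy'.2.symm
        have h2 : y * z⁻¹ * y⁻¹ = y' * z⁻¹ * y'⁻¹ := by
          simpa only [mul_assoc, mul_right_inj] using h1
        have h3 : y⁻¹ * y' * z⁻¹ = z⁻¹ * (y⁻¹ * y') := by
          have h4 : y⁻¹ * (y * z⁻¹ * y⁻¹) * y' = y⁻¹ * (y' * z⁻¹ * y'⁻¹) * y' := by rw [h2]
          simp only [mul_assoc, inv_mul_cancel_left, inv_mul_cancel, mul_one] at h4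
          rw [mul_assoc, ← h4]
        have h5 : Commute (y⁻¹ * y') z⁻¹ := h3
        exact Commute.inv_right_iff.1 h5
      · rw [Function.update_of_ne hb]
        exact hcomm y hy.1 y' hy'.1 b
    · calc #F₀ ≤ #F * f ^ j := hcard
        _ ≤ (#(F.filter (fun y => z * y * z⁻¹ * y⁻¹ = c)) * f) * f ^ j :=
          Nat.mul_le_mul_right _ hc
        _ = _ := by rw [pow_succ]; ring

lemma ball_finite [Finite ι] (x : ι → G) (n : ℕ) : (ball x n).Finite := by
  have h1 : {w : List (ι × Bool) | w.length ≤ n}.Finite := List.finite_length_le _ n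
  refine (h1.image (value x)).subset ?_
  rintro g ⟨w, hw1, hw2⟩
  exact ⟨w, hw1, hw2⟩

lemma card_bound [Finite ι] {x : ι → G} {C : ℕ}
    (hC : ∀ (n m : ℕ) (g : ℕ → G), (∀ i j, Commute (g i) (g j)) →
      (∀ b, ∃ w : List (ι × Bool), w.length ≤ 2 * n ∧ Even w.length ∧ value x w = g b) →
      Diss g m → 2 ^ m ≤ (n + 2) ^ C) (S : Subgroup G) (n f : ℕ)
    (hf : ((⁅S, S⁆ : Subgroup G) ∩ ball x (6 * n) : Set G).ncard ≤ f) :
    ((S : Set G) ∩ ball x n).ncard ≤ 2 * (3 * f) ^ (C * (Nat.log 2 (n + 2) + 1)) := by
  classical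
  set M := C * (Nat.log 2 (n + 2) + 1) with hM
  have hfin : ((S : Set G) ∩ ball x n).Finite := (ball_finite x n).subset Set.inter_subset_right
  have hfin' : ((⁅S, S⁆ : Subgroup G) ∩ ball x (6 * n) : Set G).Finite :=
    (ball_finite x (6 * n)).subset Set.inter_subset_right
  by_contra hcon
  push Not at hcon
  rw [Set.ncard_eq_toFinset_card _ hfin] at hcon
  rw [Set.ncard_eq_toFinset_card _ hfin'] at hf
  let par : Bool → Finset G := fun p => hfin.toFinset.filter
    (fun y => ∃ w : List (ι × Bool), w.length ≤ n ∧ (w.length % 2 == 1) = p ∧ value x w = y)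
  have hcover : hfin.toFinset ⊆ par true ∪ par false := by
    intro y hy
    have hy' := hy
    rw [Set.Finite.mem_toFinset] at hy'
    obtain ⟨_, w, hw1, hw2⟩ := hy'
    rw [Finset.mem_union, Finset.mem_filter, Finset.mem_filter]
    cases hp : (w.length % 2 == 1)
    · exact Or.inr ⟨hy, w, hw1, hp, hw2⟩
    · exact Or.inl ⟨hy, w, hw1, hp, hw2⟩
  obtain ⟨p, hp⟩ : ∃ p, (3 * f) ^ M < #(par p) := by
    by_contra hno
    push Not at hno
    have h1 := (Finset.card_le_card hcover).trans (Finset.card_union_le _ _)
    have h2 := hno true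
    have h3 := hno false
    omega
  obtain ⟨g, F, hg, hev, hdiss, _⟩ := select x S n f (par p) (by
      intro y hy
      rw [Finset.mem_filter, Set.Finite.mem_toFinset] at hy
      obtain ⟨w, hw1, _, hw2⟩ := hy.2
      exact ⟨hy.1.1, w, hw1, hw2⟩) (by
      intro y hy y' hy'
      rw [Finset.mem_filter] at hy hy'
      obtain ⟨w, hw1, hw3, hw2⟩ := hy.2
      obtain ⟨w', hw1', hw3', hw2'⟩ := hy'.2
      refine ⟨winv w ++ w', ?_, ?_, ?_⟩
      · rw [List.length_append, length_winv]; omega
      · rw [List.length_append, length_winv, Nat.even_iff]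
        rw [← hw3'] at hw3
        rcases Nat.mod_two_eq_zero_or_one w.length with h4 | h4 <;>
          rcases Nat.mod_two_eq_zero_or_one w'.length with h5 | h5 <;> rw [h4, h5] at hw3 <;>
            first | omega | simp at hw3
      · rw [value_append, value_winv, hw2, hw2'])
    hfin'.toFinset hf (by
      intro g hg hg'
      rw [Set.Finite.mem_toFinset]
      exact ⟨hg, hg'⟩) M hp (M + 1) le_rfl
  have h1 := hC n (M + 1) g hg hev hdiss
  have h2 : n + 2 < 2 ^ (Nat.log 2 (n + 2) + 1) := Nat.lt_pow_succ_log_self (by norm_num) _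
  have h3 : (n + 2) ^ C ≤ 2 ^ M := by
    calc (n + 2) ^ C ≤ (2 ^ (Nat.log 2 (n + 2) + 1)) ^ C := Nat.pow_le_pow_left h2.le C
      _ = 2 ^ M := by rw [← pow_mul, hM]; congr 1; ring
  have h4 : (2 : ℕ) ^ M < 2 ^ (M + 1) := Nat.pow_lt_pow_right (by norm_num) (by omega)
  omega

/-- The derived series of a subgroup. -/
def Dser : ℕ → Subgroup G → Subgroup G
  | 0, S => S
  | k + 1, S => ⁅Dser k S, Dser k S⁆

lemma Dser_comm (k : ℕ) (S : Subgroup G) : Dser k ⁅S, S⁆ = Dser (k + 1) S := by
  induction k with
  | zero => rfl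
  | succ k ih => rw [Dser, ih]; rfl

lemma map_derivedSeries (k : ℕ) (S : Subgroup G) :
    (derivedSeries S k).map S.subtype = Dser k S := by
  induction k with
  | zero => rw [derivedSeries_zero, ← MonoidHom.range_eq_map, Subgroup.range_subtype]; rfl
  | succ k ih => rw [derivedSeries_succ, Subgroup.map_commutator, ih]; rfl

theorem growth [Finite ι] {x : ι → G} (hI : IsIndexed (wordProblem x)) (d : ℕ) :
    ∃ K : ℕ, ∀ S : Subgroup G, Dser d S = ⊥ → ∀ n : ℕ,
      ((S : Set G) ∩ ball x n).ncard ≤ 2 ^ (K * Nat.log 2 (n + 2) ^ d) := by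
  obtain ⟨C, hC⟩ := bounded_families hI
  induction d with
  | zero =>
    refine ⟨0, fun S hS n => ?_⟩
    have hS' : S = ⊥ := hS
    subst hS'
    have h1 : (((⊥ : Subgroup G) : Set G) ∩ ball x n) ⊆ {1} := by
      rintro g ⟨hg, _⟩
      exact hg
    have h2 := Set.ncard_le_ncard h1 (Set.finite_singleton _)
    simpa using h2
  | succ d ih =>
    obtain ⟨K, hK⟩ := ih
    refine ⟨1 + 2 * C * (2 + K * 4 ^ d), fun S hS n => ?_⟩
    set L := Nat.log 2 (n + 2) with hL
    have hL1 : 1 ≤ L := Nat.log_pos (by norm_num) (by omega)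
    have hlog : Nat.log 2 (6 * n + 2) ≤ 4 * L := by
      have h2 : n + 2 < 2 ^ (L + 1) := Nat.lt_pow_succ_log_self (by norm_num) _
      have h3 : 6 * n + 2 < 2 ^ (L + 4) := by
        have h4 : (2 : ℕ) ^ (L + 4) = 8 * 2 ^ (L + 1) := by ring
        omega
      have h5 := Nat.log_lt_of_lt_pow (by omega) h3
      omega
    have h1 := hK ⁅S, S⁆ (by rw [Dser_comm]; exact hS) (6 * n)
    have h2 : ((⁅S, S⁆ : Subgroup G) ∩ ball x (6 * n) : Set G).ncard ≤ 2 ^ (K * 4 ^ d * L ^ d) := by
      refine h1.trans (Nat.pow_le_pow_right (by norm_num) ?_)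
      calc K * Nat.log 2 (6 * n + 2) ^ d ≤ K * (4 * L) ^ d :=
            Nat.mul_le_mul_left _ (Nat.pow_le_pow_left hlog d)
        _ = _ := by rw [mul_pow]; ring
    have h3 := card_bound hC S n _ h2
    refine h3.trans ?_
    have hLd : 1 ≤ L ^ d := Nat.one_le_pow _ _ hL1
    calc 2 * (3 * 2 ^ (K * 4 ^ d * L ^ d)) ^ (C * (L + 1))
        ≤ 2 * (2 ^ 2 * 2 ^ (K * 4 ^ d * L ^ d)) ^ (C * (L + 1)) := by
          apply Nat.mul_le_mul_left
          apply Nat.pow_le_pow_left
          apply Nat.mul_le_mul_right
          norm_num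
      _ = 2 ^ (1 + (2 + K * 4 ^ d * L ^ d) * (C * (L + 1))) := by
          rw [← pow_add, ← pow_mul, pow_add, pow_one]
      _ ≤ 2 ^ ((1 + 2 * C * (2 + K * 4 ^ d)) * L ^ (d + 1)) := by
          apply Nat.pow_le_pow_right (by norm_num)
          have e1 : 2 + K * 4 ^ d * L ^ d ≤ (2 + K * 4 ^ d) * L ^ d := by
            have : (2 + K * 4 ^ d) * L ^ d = 2 * L ^ d + K * 4 ^ d * L ^ d := by ring
            omega
          have e2 : C * (L + 1) ≤ C * (2 * L) := Nat.mul_le_mul_left _ (by omega)
          have e3 := Nat.mul_le_mul e1 e2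
          have e4 : (1 + 2 * C * (2 + K * 4 ^ d)) * L ^ (d + 1) =
              L ^ d * L + (2 + K * 4 ^ d) * L ^ d * (C * (2 * L)) := by ring
          have e5 : 1 ≤ L ^ d * L := Nat.mul_pos hLd hL1
          omega

/-- **Solvable subgroups of groups with an indexed word problem.**  Let the word problem of the
elements `x i` of a group be an indexed language.  For every `d` there is a constant `K` such that
every solvable subgroup of derived length at most `d` contains at most `2 ^ (K * (log n) ^ d)`
elements represented by words of length at most `n`. -/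
theorem result (G : Type) [Group G] (ι : Type) [Finite ι] (x : ι → G)
    (hI : IsIndexed (wordProblem x)) (d : ℕ) :
    ∃ K : ℕ, ∀ S : Subgroup G, derivedSeries S d = ⊥ → ∀ n : ℕ,
      ((S : Set G) ∩ ball x n).ncard ≤ 2 ^ (K * Nat.log 2 (n + 2) ^ d) := by
  obtain ⟨K, hK⟩ := growth hI d
  refine ⟨K, fun S hS n => hK S ?_ n⟩
  rw [← map_derivedSeries, hS, Subgroup.map_bot]

end Pool.Agent.Results.MP_429423_al.SolvableSubgroups
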